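import Pool.Agent.H38.UZ.TarZ

/-!
# MP_f6fd33_lc, Y8: step 3, the late entries of stage `ρ_ξ`
-/

set_option linter.unusedVariables false

open Ordinal Order Set
open scoped ZFSet

namespace SE.UZ

open SF

theorem pf_Y8 (hY5 : T_Y5) (hY6 : T_Y6) (hY7 : T_Y7) (hY8a : T_Y8a) (hY8b : T_Y8b)
    (hZR : T_ZR) (hZW : T_ZW) : T_Y8 := by
  intro D κ b hK hb I F Z ξ0 v0 w0 hP ξ hξ q hq Z' hZ' I1 F1 hI1 u hu hGn
  obtain ⟨r1, r2, r3, r4, r5, r6, r7, r8⟩ := hZR D κ b hK hb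
  have hξ1 : insert ξ ξ ∈ κ := (r2 ξ hξ).2.2
  have kN : ZFm D.N := hK.ok.zfc.toZFCm.toZFm
  have hIN : D.N I := kN.trans _ hK.ok.hN I hP.h
  have hr : D.N (b.rho D ξ).toZFSet := (r6 ξ hξ).2.2.1
  obtain ⟨O, hO, hQ⟩ := hY7 D κ b hK hb I F hIN hP.n hP.t ξ hξ q u hq.w hu.w hu.lq.1.le
    (fun v hv => (hu.lt v hv).le)
  obtain ⟨⟨u1, u2, u3, u4, u5, u6, u7, u8, u9, u10, u11⟩, uG⟩ := hZW D κ b hK hb _ _ _ hu.w.w
  obtain ⟨⟨q1, -, -, -, -, -, -, -, -, -, -⟩, qG⟩ := hZW D κ b hK hb _ _ _ hq.w.w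
  have sLe : ∀ {C B : V}, b.Le C B → b.u C ⊆ b.u B := fun h => (hb.leO _ _ h).2.2
  have sq : b.u (fst q) ⊆ b.u (fst u) := sLe hu.lq.1.le
  obtain ⟨h', hs, hh⟩ := hY6 D κ hK (b.u (fst u)) u4 u7
    (fun G X y => b.Qa D I F ξ G X y ∨ b.Qb D I F ξ q u G X y) O hO hQ (b.rho D ξ) hr
  have h8a := hY8a D κ b hK hb I F Z ξ0 v0 w0 hP ξ hξ q hq Z' hZ' I1 F1 hI1 u hu
  have h8b := hY8b D κ b hK hb I F Z ξ0 v0 w0 hP ξ hξ q hq Z' hZ' I1 F1 hI1 u hu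
  have hLat : b.Lat D ξ (fst u) (snd u) h' := by
    refine ⟨hs, ?_, ?_⟩
    · intro G hG X y y' e e' h1 h2
      exact (hh G hG).2.2 X y y' e e' h1 h2
    · intro G hG X y e h1
      obtain ⟨-, hX, hy, h2 | h2⟩ := (hh G hG).1 X y e h1
      · obtain ⟨a1, a2, a3, a4, -⟩ := h8a G hG X y h2
        exact ⟨a1, a2, a3, a4⟩
      · refine ⟨h2.d, h2.k, ?_, h2.s⟩
        intro h3
        obtain ⟨c1, c2, c3, c4, c5, c6, c7, c8, c9, c10, c11, c12, c13⟩ :=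
          uG _ u5 u7 (fun z hz => hz) G hG
        exact h2.p ((c13 _ q1 sq X h2.x).1 h3)
  obtain ⟨hW, hE⟩ := hY5 D κ b hK hb ξ hξ (fst u) (snd u) hu.w.w hu.tm h' hLat
  have hne : ∀ G, D.Gn (b.u (fst u)) G → ∀ X y, ¬ Ent (snd u) G X y (b.rho D ξ) := by
    intro G hG X y h1
    obtain ⟨c1, c2, c3, -⟩ := uG _ u5 u7 (fun z hz => hz) G hG
    exact lt_irrefl _ (c3 X y _ h1).2.2
  refine ⟨ZFSet.pair (fst u) (snd u ∪ h'), ?_, ?_, ?_, ?_, ?_, ?_⟩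
  · rw [fst_pair]
  · rw [fst_pair, snd_pair]
    exact hW
  · intro G hG X y e he
    rw [snd_pair, hE]
    constructor
    · rintro (h1 | h1)
      · exact h1
      · exact absurd ((hh G hG).1 X y e h1).1 he.ne
    · exact Or.inl
  · intro G hG X y h1
    rw [snd_pair, hE] at h1
    rcases h1 with h1 | h1
    · exact absurd h1 (hne G hG X y)
    · exact ((hh G hG).1 X y _ h1).2.2.2
  · intro G hG X y h1
    rw [snd_pair, hE]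
    right
    obtain ⟨v, hv, h2⟩ := id h1
    have wv : b.Wd D (b.rho D (insert ξ ξ)) (tK (app F v) (insert ξ ξ))
      (tH (app F v) (insert ξ ξ)) := ((hP.t v hv).w _ hξ1).w
    obtain ⟨-, kG⟩ := hZW D κ b hK hb _ _ _ wv
    obtain ⟨-, k2, k3, -⟩ := kG _ u5 u7 (sLe (hu.lt v hv).le) G hG
    obtain ⟨k4, k5, -⟩ := k3 X y _ h2
    obtain ⟨y', hy'⟩ := (hh G hG).2.1 X y (k2 _ k4) (k2 _ k5) (Or.inl h1)
    obtain ⟨-, -, -, -, a5, a6⟩ := h8a G hG X y h1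
    obtain ⟨-, -, -, h3 | h3⟩ := (hh G hG).1 X y' _ hy'
    · rw [a5 y' h3] at hy'
      exact hy'
    · exact absurd h3 (a6 y')
  · intro G hG X hX hnv hd hn hp
    obtain ⟨y, hy, hQb⟩ := h8b G hG (hGn G hG) X hX hnv hd hn hp
    obtain ⟨q2, q3, -⟩ := qG _ u5 u7 sq G hG
    obtain ⟨y', hy'⟩ := (hh G hG).2.1 X y (q3 _ hX) hy (Or.inr hQb)
    refine ⟨y', ?_⟩
    rw [snd_pair, hE]
    exact Or.inr hy'

end SE.UZ
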