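import Pool.Agent.H38.UZ.TarZ

/-!
# MP_f6fd33_lc, Y9: step 4, amalgamation of the late world with the cores `ξ + 1`
-/

set_option linter.unusedVariables false

open Ordinal Order Set
open scoped ZFSet

namespace SE.UZ

open SF

theorem pf_Y9 (hY2 : T_Y2) (hA : T_A) (hSM : T_SM) (hZR : T_ZR) (hZW : T_ZW) (hPWE : T_PWE)
    (hRH : T_RH) : T_Y9 := by
  intro D κ b hK hb I F Z ξ0 v0 w0 hP ξ hξ q hq Z' hZ' I1 F1 hI1 u hu u' hu'
  obtain ⟨r1, r2, r3, r4, r5, r6, r7, r8⟩ := hZR D κ b hK hb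
  obtain ⟨RH1, RH2, RH3, RH4, RH5, RH6⟩ := hRH D κ b hK hb
  have hξ1 : insert ξ ξ ∈ κ := (r2 ξ hξ).2.2
  have hξi : ξ ∈ insert ξ ξ := ZFSet.mem_insert_iff.2 (Or.inl rfl)
  have kN : ZFm D.N := hK.ok.zfc.toZFCm.toZFm
  have hIN : D.N I := kN.trans _ hK.ok.hN I hP.h
  have hκN : D.N κ := kN.trans _ hK.ok.hN κ hK.kH
  have hξ1N : D.N (insert ξ ξ) := kN.trans _ hκN _ hξ1
  have sLe : ∀ {C B : V}, b.Le C B → b.u C ⊆ b.u B := fun h => (hb.leO _ _ h).2.2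
  -- the worlds
  have wu' := hu'.w
  rw [hu'.e] at wu'
  obtain ⟨⟨u1, u2, u3, u4, u5, u6, u7, u8, u9, u10, u11⟩, uG⟩ := hZW D κ b hK hb _ _ _ wu'
  have Iu := (hPWE b D _ _ _).1 wu'
  have hlt : b.rho D ξ < b.rho D (insert ξ ξ) := (r6 ξ hξ).2.2.2.2.1
  have hsl : succ (b.rho D ξ) ≤ b.rho D (insert ξ ξ) := succ_le_of_lt hlt
  have wv : ∀ v ∈ I, b.Wd D (b.rho D (insert ξ ξ)) (tK (app F v) (insert ξ ξ))
    (tH (app F v) (insert ξ ξ)) := fun v hv => ((hP.t v hv).w _ hξ1).w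
  have sv : ∀ v ∈ I, b.u (tK (app F v) (insert ξ ξ)) ⊆ b.u (fst u) :=
    fun v hv => sLe (hu.lt v hv).le
  -- the times
  have htm : ∀ j ∈ b.u (fst u), b.Co j → tm j ∈ κ ∧ b.rho D (tm j) ≤ b.rho D ξ := by
    intro j hj hc
    have h1 := hu.tm j hj hc
    have h2 : tm j ∈ κ := r1 _ hξ1 _ h1
    exact ⟨h2, ((r4 (tm j) h2 ξ hξ).2.2.2.2.1).1 (((r4 (tm j) h2 ξ hξ).2.1).2 h1)⟩
  -- the key: entries of `u'` and of the towers
  have key : ∀ G, D.Gn (b.u (fst u)) G → ∀ v ∈ I, ∀ X,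
      RR D (b.u (tK (app F v) (insert ξ ξ))) G X → ∀ y e, e < succ (b.rho D ξ) →
      (Ent (snd u') G X y e ↔ Ent (tH (app F v) (insert ξ ξ)) G X y e) := by
    intro G hG v hv X hX y e he
    rcases (lt_succ_iff.1 he).lt_or_eq with he' | rfl
    · rw [hu'.o G hG X y e he']
      have h1 := (hu.lt v hv).e G hG X hX y e
      exact ⟨fun h => (h1.2 ⟨h, he'⟩).1, fun h => (h1.1 ⟨h, he'⟩).1⟩
    · constructor
      · intro h
        rcases hu'.l G hG X y h with ⟨v1, hv1, h2⟩ | h2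
        · obtain ⟨-, kG⟩ := hZW D κ b hK hb _ _ _ (wv v1 hv1)
          obtain ⟨-, -, k3, -⟩ := kG _ u5 u7 (sv v1 hv1) G hG
          exact ((hY2 D κ b hK hb I F Z ξ0 v0 w0 hP v1 hv1 v hv _ hξ1).2.2 _ u5 u7 (sv v1 hv1)
            (sv v hv) G hG X (k3 X y _ h2).1 hX y _).1 h2
        · exact absurd hX (h2.nx v hv)
      · intro h
        exact hu'.a G hG X y ⟨v, hv, h⟩
  -- the index set
  obtain ⟨sm1, -, sm3⟩ := hSM
  set J : V := sm {∅} I with hJ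
  have hJN : D.N J := by
    refine (sm3 D hK.ok).1 _ _ ?_ hIN
    exact (Tm.sing (Tm.empty)).1 D.N kN (fun _ => ∅) (fun _ => kN.trans _ hκN _ hK.zero)
  set z0 : V := ZFSet.pair (nS 0) ∅ with hz0
  have hz0J : z0 ∈ J := (sm1 _ _ _).2 (Or.inl ⟨∅, ZFSet.mem_singleton.2 rfl, rfl⟩)
  have hzvJ : ∀ v ∈ I, ZFSet.pair (nS 1) v ∈ J := fun v hv => (sm1 _ _ _).2 (Or.inr ⟨v, hv, rfl⟩)
  have hJe : ∀ z ∈ J, z = z0 ∨ ∃ v ∈ I, z = ZFSet.pair (nS 1) v := by
    intro z hz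
    rcases (sm1 _ _ _).1 hz with ⟨x, hx, rfl⟩ | h
    · rw [ZFSet.mem_singleton.1 hx]
      exact Or.inl rfl
    · exact Or.inr h
  have n10 : nS 1 ≠ nS 0 := fun h => absurd (nS_inj.1 h) one_ne_zero
  set Bf : V := resS J fun z => sel (fst z = nS 0) (fst u) (tK (app F (snd z)) (insert ξ ξ))
    with hBf
  set Hf : V := resS J fun z => sel (fst z = nS 0) (snd u') (tH (app F (snd z)) (insert ξ ξ))
    with hHf
  have hT : ∀ A, D.N A → D.N (resS J fun z => sel (fst z = nS 0) A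
      (tK (app F (snd z)) (insert ξ ξ))) ∧ D.N (resS J fun z => sel (fst z = nS 0) A
      (tH (app F (snd z)) (insert ξ ξ))) := by
    intro A hA'
    constructor
    · exact (Tm.resS (Tm.var 0) (Tm.sel (Dfb.eq (Tm.fst (Tm.var 0)) (Tm.nS 0)) (Tm.var 2)
        (Tm.fst (Tm.app (Tm.app (Tm.var 3) (Tm.snd (Tm.var 0))) (Tm.var 4))))).1 D.N kN
        (cons J (cons A (cons F fun _ => insert ξ ξ)))
        (In.cons (In.cons (In.cons (fun _ => hξ1N) hP.n) hA') hJN)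
    · exact (Tm.resS (Tm.var 0) (Tm.sel (Dfb.eq (Tm.fst (Tm.var 0)) (Tm.nS 0)) (Tm.var 2)
        (Tm.snd (Tm.app (Tm.app (Tm.var 3) (Tm.snd (Tm.var 0))) (Tm.var 4))))).1 D.N kN
        (cons J (cons A (cons F fun _ => insert ξ ξ)))
        (In.cons (In.cons (In.cons (fun _ => hξ1N) hP.n) hA') hJN)
  let s : V → Ordinal.{0} := fun z => open Classical in
    if fst z = nS 0 then succ (b.rho D ξ) else b.rho D (insert ξ ξ)
  have hs0 : s z0 = succ (b.rho D ξ) := if_pos (by rw [hz0, fst_pair])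
  have hsv : ∀ v, s (ZFSet.pair (nS 1) v) = b.rho D (insert ξ ξ) := by
    intro v
    exact if_neg (by rw [fst_pair]; exact n10)
  have hB0 : app Bf z0 = fst u := by
    rw [hBf, app_resS hz0J, hz0, fst_pair, sel_pos rfl]
  have hH0 : app Hf z0 = snd u' := by
    rw [hHf, app_resS hz0J, hz0, fst_pair, sel_pos rfl]
  have hBv : ∀ v ∈ I, app Bf (ZFSet.pair (nS 1) v) = tK (app F v) (insert ξ ξ) := by
    intro v hv
    rw [hBf, app_resS (hzvJ v hv), fst_pair, snd_pair, sel_neg n10]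
  have hHv : ∀ v ∈ I, app Hf (ZFSet.pair (nS 1) v) = tH (app F v) (insert ξ ξ) := by
    intro v hv
    rw [hHf, app_resS (hzvJ v hv), fst_pair, snd_pair, sel_neg n10]
  -- facts on the worlds of the towers
  have kW : ∀ v ∈ I, D.N (b.u (tK (app F v) (insert ξ ξ))) ∧
      Tr (b.u (tK (app F v) (insert ξ ξ))) ∧ ∀ G, D.Gn (b.u (fst u)) G →
        (∀ X y e, Ent (tH (app F v) (insert ξ ξ)) G X y e →
          RR D (b.u (tK (app F v) (insert ξ ξ))) G X ∧ e < b.rho D (insert ξ ξ)) ∧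
        ∀ s', D.N s' → s' ⊆ b.u (tK (app F v) (insert ξ ξ)) → Tr s' → ∀ x, RR D s' G x →
          RR D (b.u (tK (app F v) (insert ξ ξ))) G x := by
    intro v hv
    obtain ⟨⟨-, -, -, -, k5, k6, -, -, -, -, -⟩, kG⟩ := hZW D κ b hK hb _ _ _ (wv v hv)
    refine ⟨k5, k6, fun G hG => ?_⟩
    obtain ⟨c1, c2, c3, c4, c5, c6, c7, c8, c9, -⟩ := kG _ u5 u7 (sv v hv) G hG
    exact ⟨fun X y e h => ⟨(c3 X y e h).1, (c3 X y e h).2.2⟩,
      fun s' h1 h2 h3 x hx => (c9 s' h1 h2 h3).2 x hx⟩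
  have hAF : b.AF D (b.rho D (insert ξ ξ)) J Bf Hf s (fst u) := by
    refine ⟨hJN, ?_, ?_, ?_, u2, ?_, ?_, ?_, ?_, ?_, ?_⟩
    · exact (hT _ u8).1
    · exact (hT _ u9).2
    · have h1 : resS J (fun z => (s z).toZFSet) = resS J fun z => sel (fst z = nS 0)
          (succ (b.rho D ξ)).toZFSet (b.rho D (insert ξ ξ)).toZFSet := by
        refine resS_congr fun z hz => ?_
        rcases hJe z hz with rfl | ⟨v, hv, rfl⟩
        · rw [hs0, hz0, fst_pair, sel_pos rfl]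
        · rw [hsv, fst_pair, sel_neg n10]
      rw [h1]
      exact (Tm.resS (Tm.var 0) (Tm.sel (Dfb.eq (Tm.fst (Tm.var 0)) (Tm.nS 0)) (Tm.var 2)
        (Tm.var 3))).1 D.N kN (cons J (cons (succ (b.rho D ξ)).toZFSet
          fun _ => (b.rho D (insert ξ ξ)).toZFSet))
        (In.cons (In.cons (fun _ => (r6 _ hξ1).2.2.1) (r6 _ hξ).2.2.2.1) hJN)
    · intro z hz
      rcases hJe z hz with rfl | ⟨v, hv, rfl⟩
      · rw [hs0]; exact hsl
      · rw [hsv]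
    · intro z hz
      rcases hJe z hz with rfl | ⟨v, hv, rfl⟩
      · rw [hs0, hB0, hH0]; exact wu'
      · rw [hsv, hBv v hv, hHv v hv]; exact wv v hv
    · intro z hz
      rcases hJe z hz with rfl | ⟨v, hv, rfl⟩
      · rw [hB0]; exact hb.rfl _ u1
      · rw [hBv v hv]; exact (hu.lt v hv).le
    · -- (a1)
      intro G hG z hz z' hz' X hX y e he he'
      have hI2 : ∀ a c, D.N a → D.N c → D.N (a ∩ c) := fun a c ha hc =>
        (Tm.inter (Tm.var 0) (Tm.var 1)).1 D.N kN (cons a fun _ => c) (In.cons (fun _ => hc) ha)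
      have hT2 : ∀ a c : V, Tr a → Tr c → Tr (a ∩ c) := by
        intro a c ha hc i hi x hx
        obtain ⟨h1, h2⟩ := ZFSet.mem_inter.1 hi
        exact ZFSet.mem_inter.2 ⟨ha i h1 hx, hc i h2 hx⟩
      rcases hJe z hz with rfl | ⟨v, hv, rfl⟩ <;> rcases hJe z' hz' with rfl | ⟨v', hv', rfl⟩
      · exact Iff.rfl
      · rw [hH0, hHv v' hv']
        rw [hB0, hBv v' hv'] at hX
        rw [hs0] at he
        obtain ⟨k1, k2, k3⟩ := kW v' hv'
        exact key G hG v' hv' X ((k3 G hG).2 _ (hI2 _ _ u5 k1)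
          (fun i hi => (ZFSet.mem_inter.1 hi).2) (hT2 _ _ u6 k2) X hX) y e he
      · rw [hH0, hHv v hv]
        rw [hB0, hBv v hv] at hX
        rw [hs0] at he'
        obtain ⟨k1, k2, k3⟩ := kW v hv
        exact (key G hG v hv X ((k3 G hG).2 _ (hI2 _ _ k1 u5)
          (fun i hi => (ZFSet.mem_inter.1 hi).1) (hT2 _ _ k2 u6) X hX) y e he').symm
      · rw [hHv v hv, hHv v' hv']
        rw [hBv v hv, hBv v' hv'] at hX
        obtain ⟨k1, k2, k3⟩ := kW v hv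
        obtain ⟨l1, l2, l3⟩ := kW v' hv'
        refine (hY2 D κ b hK hb I F Z ξ0 v0 w0 hP v hv v' hv' _ hξ1).2.2 _ u5 u7 (sv v hv)
          (sv v' hv') G hG X ?_ ?_ y e
        · exact (k3 G hG).2 _ (hI2 _ _ k1 l1) (fun i hi => (ZFSet.mem_inter.1 hi).1)
            (hT2 _ _ k2 l2) X hX
        · exact (l3 G hG).2 _ (hI2 _ _ k1 l1) (fun i hi => (ZFSet.mem_inter.1 hi).2)
            (hT2 _ _ k2 l2) X hX
    · -- (a2)
      intro j hj hc
      obtain ⟨h1, h2⟩ := htm j hj hc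
      have h3 : b.sj D (b.Wd D) (b.rho D (insert ξ ξ)) (tm j) = b.rho D (tm j) :=
        (RH5 _ hξ1 (tm j)).1 (hu.tm j hj hc)
      have h4 : b.sj D (b.Wd D) (succ (b.rho D ξ)) (tm j) = b.rho D (tm j) :=
        (RH5 _ hξ (tm j)).2.2 (hu.tm j hj hc)
      refine ⟨z0, hz0J, ?_, ?_, ?_, ?_⟩
      · rw [hB0]; exact (u11 j hj hc).1
      · rw [hs0, h3]; exact h2.trans (le_succ _)
      · rw [hB0, hH0, h3, ← h4]
        exact Iu.w0 j hj hc
      · intro G hG X y e he hE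
        rw [hH0] at hE
        exact Iu.w1 j hj hc G hG X y e hE
    · -- (a3)
      intro G hG j hj hc z hz X y e hE hL ht
      rcases hJe z hz with rfl | ⟨v, hv, rfl⟩
      · rw [hH0] at hE
        have h1 : e < succ (b.rho D ξ) := ((uG _ u5 u7 (fun i hi => hi) G hG).2.2.1 X y e hE).2.2
        exact (Iu.w3 e h1 hL G hG X y hE).2 j hj hc ht
      · rw [hHv v hv] at hE
        obtain ⟨k1, k2, k3⟩ := kW v hv
        obtain ⟨h1, h2⟩ := (k3 G hG).1 X y e hE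
        obtain ⟨ζ, hζ, rfl⟩ := r7 _ hξ1 e hL h2
        have hζκ : ζ ∈ κ := r1 _ hξ1 _ hζ
        have h3 : b.rho D ζ < succ (b.rho D ξ) := lt_succ_iff.2
          (((r4 ζ hζκ ξ hξ).2.2.2.2.1).1 (((r4 ζ hζκ ξ hξ).2.1).2 hζ))
        have h4 := (key G hG v hv X h1 y _ h3).2 hE
        exact (Iu.w3 _ h3 hL G hG X y h4).2 j hj hc ht
  obtain ⟨hp, hw, hl⟩ := hA D κ b _ ⟨hK, hb, (r6 _ hξ1).2.2.1⟩ J Bf Hf s (fst u) hAF
  refine ⟨ZFSet.pair (fst u) hp, ⟨?_, ?_⟩, ?_, ?_, ?_⟩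
  · rw [fst_pair, snd_pair]
  · rw [fst_pair, snd_pair]
    exact hw
  · rw [fst_pair]
  · rw [fst_pair, snd_pair, hu'.e]
    have h1 := hl z0 hz0J
    rw [hs0, hB0, hH0] at h1
    exact h1
  · intro v hv
    show b.LW D _ _ _ _ _
    rw [fst_pair, snd_pair]
    have h1 := hl _ (hzvJ v hv)
    rw [hsv, hBv v hv, hHv v hv] at h1
    exact h1

end SE.UZ
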